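import Pool.Agent.helper83.LS.Spec

set_option autoImplicit false

/-!
# ls: RP (helper77)
-/

namespace LSH

theorem RP_nc (hOB : OB_stmt) (hEE : EE_stmt) {p y : Pt} {h : Bool} {d : PT} (hpy : p.1 < y.1)
    (hd : ∀ s ∈ d.pts, y.1 < s.1)
    (hc : h = true ∨ (y.2 < p.2 ∧ d.root.2 < y.2) ∨ (p.2 < y.2 ∧ y.2 < d.root.2)) :
    ∀ e ∈ att y h d, NC ⟨p, y, true⟩ e := by
  intro e he z hz1 hz2
  have h1 : z.1 ∈ Set.uIcc p.1 y.1 := (hOB.1 _ z hz1).1
  have h1' : z.2 ∈ Set.uIcc p.2 y.2 := (hOB.1 _ z hz1).2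
  rw [Set.uIcc_of_le hpy.le] at h1
  rw [att, List.mem_cons] at he
  rcases he with rfl | he
  · have hr := hd _ (hEE.2.1 d)
    have h2 : z.1 ∈ Set.uIcc y.1 d.root.1 := (hOB.1 _ z hz2).1
    have h2' : z.2 ∈ Set.uIcc y.2 d.root.2 := (hOB.1 _ z hz2).2
    rw [Set.uIcc_of_le hr.le] at h2
    have hzy : z.1 = y.1 := le_antisymm h1.2 h2.1
    have key : z.2 = y.2 := by
      rcases hc with rfl | ⟨c1, c2⟩ | ⟨c1, c2⟩
      · rcases hz2 with ⟨-, ⟨h3, -⟩ | ⟨h3, -⟩⟩ | ⟨h3, -⟩
        · exact h3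
        · have h4 : z.1 = d.root.1 := h3
          rw [hzy] at h4
          exact absurd h4 (ne_of_lt hr)
        · exact absurd h3 (by simp)
      · rw [Set.uIcc_of_ge c1.le] at h1'
        rw [Set.uIcc_of_ge c2.le] at h2'
        exact le_antisymm h2'.2 h1'.1
      · rw [Set.uIcc_of_le c1.le] at h1'
        rw [Set.uIcc_of_le c2.le] at h2'
        exact le_antisymm h1'.2 h2'.1
    have hzy' : z = y := Prod.ext hzy key
    exact ⟨Or.inr hzy', Or.inl hzy'⟩
  · exfalso
    obtain ⟨ha, hb⟩ := hEE.1 d e he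
    have h2 := (hOB.1 _ z hz2).1
    have h3 : y.1 < z.1 := lt_of_lt_of_le (lt_min (hd _ ha) (hd _ hb)) h2.1
    linarith [h1.2]

theorem RP (hOB : OB_stmt) (hEE : EE_stmt) (hAU : AU_stmt) (hDW : DW_stmt) : RP_stmt := by
  refine ⟨?_, ?_, ?_⟩
  · intro S p hS _ _
    obtain ⟨s, rfl⟩ := Finset.card_eq_one.1 hS
    exact ⟨.leaf s, rfl, rfl, List.pairwise_singleton _ _⟩
  · intro t ht S p hS hG hp
    have hS' : S.card = t.size + 1 := hS
    have hne : S.Nonempty := by
      rw [← Finset.card_pos, hS']; omega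
    obtain ⟨y, hyS, hy⟩ := S.exists_min_image Prod.fst hne
    have hR : (S.erase y).card = t.size := by
      rw [Finset.card_erase_of_mem hyS, hS']; rfl
    have hGS : ∀ a ∈ S, ∀ b ∈ S, a ≠ b → a.1 ≠ b.1 ∧ a.2 ≠ b.2 := fun a ha b hb hab =>
      hG a (Set.mem_insert_of_mem _ ha) b (Set.mem_insert_of_mem _ hb) hab
    have hGy : Gen (insert y ((S.erase y : Finset Pt) : Set Pt)) := by
      intro a ha b hb hab
      have hin : ∀ c ∈ (insert y ((S.erase y : Finset Pt) : Set Pt)), c ∈ S := by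
        intro c hc
        rcases hc with rfl | hc
        · exact hyS
        · exact Finset.mem_of_mem_erase hc
      exact hGS a (hin a ha) b (hin b hb) hab
    have hyR : ∀ s ∈ S.erase y, y.1 < s.1 := by
      intro s hs
      have h1 := hy s (Finset.mem_of_mem_erase hs)
      exact lt_of_le_of_ne h1 (hGS y hyS s (Finset.mem_of_mem_erase hs) (Finset.ne_of_mem_erase hs).symm).1
    have hpy : p.1 < y.1 := hp y hyS
    have hpy2 : p.2 ≠ y.2 := by
      refine (hG p (Set.mem_insert _ _) y (Set.mem_insert_of_mem _ hyS) ?_).2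
      rintro rfl
      exact lt_irrefl _ hpy
    have fin : ∀ (d : PT) (h : Bool), Att y h t (S.erase y) d →
        (h = true ∨ (y.2 < p.2 ∧ d.root.2 < y.2) ∨ (p.2 < y.2 ∧ y.2 < d.root.2)) →
        ∃ d, Att p true (.un t) S d := by
      intro d h hA hc
      refine ⟨.un y h d, ?_⟩
      have := hAU p y true h t (S.erase y) d hA (Finset.notMem_erase y S) (RP_nc hOB hEE hpy ?_ hc)
      · rw [Finset.insert_erase hyS] at this
        exact this
      · intro s hs
        rw [hA.2.1] at hs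
        exact hyR s hs
    rcases lt_or_gt_of_ne hpy2 with hlt | hgt
    · obtain ⟨d, h, hA, hc⟩ := (hDW t ht (S.erase y) y hR hGy).1 hyR
      refine fin d h hA ?_
      rcases hc with hc | hc
      · exact Or.inl hc
      · exact Or.inr (Or.inr ⟨hlt, hc⟩)
    · obtain ⟨d, h, hA, hc⟩ := ht (S.erase y) y hR hGy hyR
      refine fin d h hA ?_
      rcases hc with hc | hc
      · exact Or.inl hc
      · exact Or.inr (Or.inl ⟨hgt, hc⟩)
  · intro t ht S p hS hG hp
    obtain ⟨d, hd⟩ := ht S p hS hG hp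
    exact ⟨d, true, hd, Or.inl rfl⟩

end LSH
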